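import Mathlib

set_option autoImplicit false

/-!
# The cubic `q`-Serre relations
-/

namespace Pool.Agent.H3N.QSerre

/-- `[3]_q = q^2 + 1 + q^{-2}`. -/
def three {K : Type*} [Field K] (q : K) : K := q ^ 2 + 1 + (q ^ 2)⁻¹

/-- The cubic `q`-Serre expression `a^3 b - t a^2 b a + t a b a^2 - b a^3`. -/
def serre {K R : Type*} [Field K] [Ring R] [Algebra K R] (t : K) (a b : R) : R :=
  a ^ 3 * b - t • (a ^ 2 * b * a) + t • (a * b * a ^ 2) - b * a ^ 3

/-- The defining relations of `U` on the free algebra with generators `A = ι 0` and `A* = ι 1`: the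
cubic `q`-Serre expression with `t = [3]_q` vanishes for `(a, b) = (A, A*)` and `(a, b) = (A*, A)`. -/
inductive Rel {K : Type*} [Field K] (q : K) : FreeAlgebra K (Fin 2) → FreeAlgebra K (Fin 2) → Prop
  | mk (i j : Fin 2) (h : i ≠ j) :
      Rel q (serre (three q) (FreeAlgebra.ι K i) (FreeAlgebra.ι K j)) 0

end Pool.Agent.H3N.QSerre
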