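import Pool.Agent.H3N.QSerre.Defs

set_option autoImplicit false
set_option linter.all false

/-!
# The center of the positive part of the quantum affine algebra of type `A_1^(1)`

Let `U` be the algebra with two generators `A = θ 0`, `A* = θ 1` and the two cubic `q`-Serre
relations, over any field, with `q` nonzero and not a root of unity. We show that the center of `U`
consists of the scalars.

Outline. (1) `U` is graded by pairs of integers, so it suffices to treat homogeneous central
elements. (2) There is a coproduct `Δ` from `U` to the braided tensor square of `U`, constructed here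
through an action of `U` on `U ⊗ U`. If a nonzero homogeneous `u` of degree `μ` satisfies
`θ i * u = λ u * θ i`, then `λ = q ^ ((α_i, μ) - 2 N)` for some natural number `N`: compare the
components of the coproduct whose second factor has degree `(N + 1) α_i`, where `N` is the largest
number for which the component of degree `N α_i` is nonzero (`key_lemma`). As `(α_0, μ) = - (α_1, μ)`,
a homogeneous central element has degree `(a, a)`. (3) For such an element `z`, the lowest
components of `Δ z - z ⊗ 1 - 1 ⊗ z` have first factors that `q`-commute with both generators;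
by (2) they are central of degree `(b, b)` with `0 < b < a`, so they vanish by induction. Hence `z` is
primitive. (4) The braided antipode `S` then satisfies `S z = - z`, whereas `S (S u) = q ^ (-4 a) u` on
the elements of degree `(a, a)`. So `z = q ^ (-4 a) z` and `z = 0` if `a > 0`.
-/

namespace Pool.Agent.H3N.QSerre

open scoped TensorProduct

/-- A copy of the algebra `RingQuot (Rel q)`, used in the proofs. -/
def U {K : Type*} [Field K] (q : K) : Type _ := RingQuot (Rel q)

noncomputable instance {K : Type*} [Field K] (q : K) : Ring (U q) :=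
  inferInstanceAs (Ring (RingQuot (Rel q)))

noncomputable instance {K : Type*} [Field K] (q : K) : Algebra K (U q) :=
  inferInstanceAs (Algebra K (RingQuot (Rel q)))

/-- The quotient map. -/
noncomputable def mk {K : Type*} [Field K] (q : K) : FreeAlgebra K (Fin 2) →ₐ[K] U q :=
  RingQuot.mkAlgHom K (Rel q)

theorem serre_add {K R : Type*} [Field K] [Ring R] [Algebra K R] {q : K} (hq : q ≠ 0)
    {a b c d : R} (h1 : serre (three q) a b = 0) (h2 : serre (three q) c d = 0)
    (hca : c * a = q ^ 2 • (a * c)) (hcb : c * b = (q ^ 2)⁻¹ • (b * c))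
    (hda : d * a = (q ^ 2)⁻¹ • (a * d)) : serre (three q) (a + c) (b + d) = 0 := by
  have hca' : ∀ z, c * (a * z) = q ^ 2 • (a * (c * z)) := fun z => by
    rw [← mul_assoc, hca, smul_mul_assoc, mul_assoc]
  have hcb' : ∀ z, c * (b * z) = (q ^ 2)⁻¹ • (b * (c * z)) := fun z => by
    rw [← mul_assoc, hcb, smul_mul_assoc, mul_assoc]
  have hda' : ∀ z, d * (a * z) = (q ^ 2)⁻¹ • (a * (d * z)) := fun z => by
    rw [← mul_assoc, hda, smul_mul_assoc, mul_assoc]
  unfold serre three at *
  simp only [pow_succ, pow_zero, one_mul, mul_add, add_mul, mul_assoc] at h1 h2 hca hcb hda hca' hcb' hda' ⊢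
  simp only [hca, hcb, hda, hca', hcb', hda', mul_smul_comm, smul_mul_assoc, smul_smul, smul_add, smul_sub] at h1 h2 ⊢
  linear_combination (norm := skip) h1 + h2
  match_scalars <;> field_simp <;> ring

/-- twisting -/
theorem serre_twist {K R : Type*} [Field K] [Ring R] [Algebra K R] {q : K} (hq : q ≠ 0)
    {a b g h : R} (h1 : serre (three q) a b = 0) (hgh : g * h = h * g)
    (hga : g * a = q ^ 2 • (a * g)) (hgb : g * b = (q ^ 2)⁻¹ • (b * g))
    (hha : h * a = (q ^ 2)⁻¹ • (a * h)) : serre (three q) (a * g) (b * h) = 0 := by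
  have hga' : ∀ z, g * (a * z) = q ^ 2 • (a * (g * z)) := fun z => by
    rw [← mul_assoc, hga, smul_mul_assoc, mul_assoc]
  have hgb' : ∀ z, g * (b * z) = (q ^ 2)⁻¹ • (b * (g * z)) := fun z => by
    rw [← mul_assoc, hgb, smul_mul_assoc, mul_assoc]
  have hha' : ∀ z, h * (a * z) = (q ^ 2)⁻¹ • (a * (h * z)) := fun z => by
    rw [← mul_assoc, hha, smul_mul_assoc, mul_assoc]
  have hgh' : ∀ z, g * (h * z) = h * (g * z) := fun z => by
    rw [← mul_assoc, hgh, mul_assoc]
  have key : serre (three q) (a * g) (b * h) = serre (three q) a b * (h * (g * (g * g))) := by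
    unfold serre three
    simp only [pow_succ, pow_zero, one_mul, mul_add, add_mul, sub_mul, mul_assoc]
    simp only [hga, hgb, hha, hga', hgb', hha', hgh, hgh', mul_smul_comm, smul_mul_assoc, smul_smul, smul_add, smul_sub, mul_assoc]
    match_scalars <;> field_simp <;> ring
  rw [key, h1, zero_mul]

/-- product with commuting elements -/
theorem serre_comm {K R : Type*} [Field K] [Ring R] [Algebra K R] {t : K}
    {a b g h : R} (h1 : serre t a b = 0) (hgh : g * h = h * g)
    (hga : g * a = a * g) (hgb : g * b = b * g)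
    (hha : h * a = a * h) : serre t (a * g) (b * h) = 0 := by
  have hga' : ∀ z, g * (a * z) = (a * (g * z)) := fun z => by
    rw [← mul_assoc, hga, mul_assoc]
  have hgb' : ∀ z, g * (b * z) = (b * (g * z)) := fun z => by
    rw [← mul_assoc, hgb, mul_assoc]
  have hha' : ∀ z, h * (a * z) = (a * (h * z)) := fun z => by
    rw [← mul_assoc, hha, mul_assoc]
  have hgh' : ∀ z, g * (h * z) = h * (g * z) := fun z => by
    rw [← mul_assoc, hgh, mul_assoc]
  have key : serre t (a * g) (b * h) = serre t a b * (h * (g * (g * g))) := by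
    unfold serre
    simp only [pow_succ, pow_zero, one_mul, mul_add, add_mul, sub_mul, mul_assoc]
    simp only [hga, hgb, hha, hga', hgb', hha', hgh, hgh', mul_smul_comm, smul_mul_assoc, smul_smul, smul_add, smul_sub, mul_assoc]
  rw [key, h1, zero_mul]

/-- scaling -/
theorem serre_smul {K R : Type*} [Field K] [Ring R] [Algebra K R] {t : K}
    {a b : R} (h1 : serre t a b = 0) (c d : K) : serre t (c • a) (d • b) = 0 := by
  have key : serre t (c • a) (d • b) = (c ^ 3 * d) • serre t a b := by
    unfold serre
    simp only [pow_succ, pow_zero, one_mul, mul_assoc, mul_smul_comm, smul_mul_assoc, smul_smul, smul_add, smul_sub]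
    match_scalars <;> ring
  rw [key, h1, smul_zero]

section
variable {K : Type*} [Field K] (q : K)

/-- The generators. -/
noncomputable def θ (i : Fin 2) : U q := mk q (FreeAlgebra.ι K i)

theorem serre_map {R S : Type*} [Ring R] [Algebra K R] [Ring S] [Algebra K S] (f : R →ₐ[K] S) (t : K)
    (a b : R) : f (serre t a b) = serre t (f a) (f b) := by
  simp [serre]

theorem serre_θ (i j : Fin 2) (h : i ≠ j) : serre (three q) (θ q i) (θ q j) = 0 := by
  have : mk q _ = mk q _ := RingQuot.mkAlgHom_rel K (Rel.mk (q := q) i j h)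
  rw [serre_map, map_zero] at this
  exact this

/-- universal property -/
noncomputable def lift {R : Type*} [Ring R] [Algebra K R] (f : Fin 2 → R)
    (h : ∀ i j, i ≠ j → serre (three q) (f i) (f j) = 0) : U q →ₐ[K] R :=
  RingQuot.liftAlgHom K ⟨FreeAlgebra.lift K f, by
    rintro _ _ ⟨i, j, hij⟩
    rw [serre_map, map_zero, FreeAlgebra.lift_ι_apply, FreeAlgebra.lift_ι_apply]
    exact h i j hij⟩

@[simp] theorem lift_θ {R : Type*} [Ring R] [Algebra K R] (f : Fin 2 → R)
    (h : ∀ i j, i ≠ j → serre (three q) (f i) (f j) = 0) (i : Fin 2) : lift q f h (θ q i) = f i := by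
  have := RingQuot.liftAlgHom_mkAlgHom_apply K (FreeAlgebra.lift K f) (s := Rel q) (by
    rintro _ _ ⟨i, j, hij⟩
    rw [serre_map, map_zero, FreeAlgebra.lift_ι_apply, FreeAlgebra.lift_ι_apply]
    exact h i j hij) (FreeAlgebra.ι K i)
  rw [FreeAlgebra.lift_ι_apply] at this
  exact this

theorem ind {N : Submodule K (U q)} (h1 : 1 ∈ N) (hθ : ∀ i, ∀ u ∈ N, θ q i * u ∈ N) (u : U q) :
    u ∈ N := by
  obtain ⟨a, ha⟩ : ∃ a, mk q a = u := RingQuot.mkAlgHom_surjective K (Rel q) u
  subst ha
  have key : ∀ a : FreeAlgebra K (Fin 2), ∀ v ∈ N, mk q a * v ∈ N := by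
    intro a
    induction a using FreeAlgebra.induction with
    | grade0 r =>
      intro v hv
      rw [AlgHom.commutes, ← Algebra.smul_def]
      exact N.smul_mem r hv
    | grade1 i => exact fun v hv => hθ i v hv
    | mul a b ha hb =>
      intro v hv
      rw [map_mul, mul_assoc]
      exact ha _ (hb v hv)
    | add a b ha hb =>
      intro v hv
      rw [map_add, add_mul]
      exact N.add_mem (ha v hv) (hb v hv)
  simpa using key a 1 h1

theorem ind_eq {M : Type*} [AddCommGroup M] [Module K M] {f g : U q →ₗ[K] M} (h1 : f 1 = g 1)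
    (hθ : ∀ i u, f u = g u → f (θ q i * u) = g (θ q i * u)) (u : U q) : f u = g u := by
  have := ind q (N := LinearMap.eqLocus f g) h1 (fun i u hu => hθ i u hu) u
  exact this


/-- `q ^ (α_i, α_j)` -/
def cc {K : Type*} [Field K] (q : K) (i j : Fin 2) : K := if i = j then q ^ 2 else (q ^ 2)⁻¹

/-- simple roots as degrees -/
def al (i : Fin 2) : ℤ × ℤ := if i = 0 then (1, 0) else (0, 1)

/-- `(α_i, d)` -/
def fm (i : Fin 2) (d : ℤ × ℤ) : ℤ := if i = 0 then 2 * (d.1 - d.2) else 2 * (d.2 - d.1)

theorem cc_eq (i j : Fin 2) : cc q i j = q ^ (fm i (al j)) := by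
  unfold cc fm al
  fin_cases i <;> fin_cases j <;> simp <;> norm_cast

theorem fm_add (i : Fin 2) (d e : ℤ × ℤ) : fm i (d + e) = fm i d + fm i e := by
  unfold fm
  split_ifs <;> simp <;> ring

/-- the automorphism `κ_i` -/
noncomputable def κ (i : Fin 2) : U q →ₐ[K] U q :=
  lift q (fun j => cc q i j • θ q j) (fun j k hjk => serre_smul (serre_θ q j k hjk) _ _)

@[simp] theorem κ_θ (i j : Fin 2) : κ q i (θ q j) = cc q i j • θ q j := by
  unfold κ
  rw [lift_θ]

/-- the coaction of the grading group -/
noncomputable def φ : U q →ₐ[K] AddMonoidAlgebra (U q) (ℤ × ℤ) :=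
  lift q (fun j => AddMonoidAlgebra.single (al j) (θ q j)) (by
    intro i j hij
    have h := serre_θ q i j hij
    have key : serre (three q) (AddMonoidAlgebra.single (al i) (θ q i))
        (AddMonoidAlgebra.single (al j) (θ q j)) =
        AddMonoidAlgebra.single (al i + al i + al i + al j) (serre (three q) (θ q i) (θ q j)) := by
      unfold serre
      simp only [pow_succ, pow_zero, one_mul, AddMonoidAlgebra.single_mul_single,
        AddMonoidAlgebra.smul_single, AddMonoidAlgebra.single_add, AddMonoidAlgebra.single_sub]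
      have e1 : al i + al i + al j + al i = al i + al i + al i + al j := by abel
      have e2 : al i + al j + (al i + al i) = al i + al i + al i + al j := by abel
      have e3 : al j + (al i + al i + al i) = al i + al i + al i + al j := by abel
      rw [e1, e2, e3]
    rw [key, h, AddMonoidAlgebra.single_zero])

@[simp] theorem φ_θ (i : Fin 2) : φ q (θ q i) = AddMonoidAlgebra.single (al i) (θ q i) := by
  unfold φ
  rw [lift_θ]

/-- projection to degree `d` -/
noncomputable def π (d : ℤ × ℤ) : U q →ₗ[K] U q where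
  toFun u := (φ q u).coeff d
  map_add' u v := by simp
  map_smul' c u := by simp

theorem π_def (d : ℤ × ℤ) (u : U q) : π q d u = (φ q u).coeff d := rfl

theorem π_one (d : ℤ × ℤ) : π q d 1 = if d = 0 then 1 else 0 := by
  rw [π_def, map_one, AddMonoidAlgebra.one_def, AddMonoidAlgebra.coeff_single,
    Finsupp.single_apply]
  simp only [eq_comm]

theorem π_θ_mul (d : ℤ × ℤ) (i : Fin 2) (u : U q) :
    π q d (θ q i * u) = θ q i * π q (d - al i) u := by
  rw [π_def, map_mul, φ_θ, AddMonoidAlgebra.coeff_single_mul_apply, π_def]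
  congr 3
  abel

theorem π_mul_θ (d : ℤ × ℤ) (i : Fin 2) (u : U q) :
    π q d (u * θ q i) = π q (d - al i) u * θ q i := by
  rw [π_def, map_mul, φ_θ, AddMonoidAlgebra.coeff_mul_single_apply, π_def]
  congr 3

theorem sum_π (u : U q) : (φ q u).coeff.sum (fun _ v => v) = u := by
  have h : ∀ a b : AddMonoidAlgebra (U q) (ℤ × ℤ), (a + b).coeff.sum (fun _ v => v) =
      a.coeff.sum (fun _ v => v) + b.coeff.sum (fun _ v => v) := fun a b => by
    rw [AddMonoidAlgebra.coeff_add]
    exact Finsupp.sum_add_index' (fun _ => rfl) (fun _ _ _ => rfl)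
  let f : U q →ₗ[K] U q :=
    { toFun := fun u => (φ q u).coeff.sum (fun _ v => v)
      map_add' := fun a b => by rw [map_add, h]
      map_smul' := fun c a => by
        rw [map_smul, AddMonoidAlgebra.coeff_smul, Finsupp.sum_smul_index' (fun _ => rfl),
          Finsupp.smul_sum]
        rfl }
  have := ind_eq q (f := f) (g := LinearMap.id) ?_ ?_ u
  · exact this
  · show (φ q 1).coeff.sum (fun _ v => v) = 1
    rw [map_one, AddMonoidAlgebra.one_def, AddMonoidAlgebra.coeff_single, Finsupp.sum_single_index rfl]
  · intro i u hu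
    have hu' : (φ q u).coeff.sum (fun _ v => v) = u := hu
    show (φ q (θ q i * u)).coeff.sum (fun _ v => v) = θ q i * u
    rw [map_mul, φ_θ]
    conv_rhs => rw [← hu']
    generalize φ q u = a
    induction a using AddMonoidAlgebra.induction_linear with
    | zero => simp
    | add a b ha hb => rw [mul_add, h, h, ha, hb, mul_add]
    | single m r =>
      rw [AddMonoidAlgebra.single_mul_single, AddMonoidAlgebra.coeff_single,
        AddMonoidAlgebra.coeff_single, Finsupp.sum_single_index rfl, Finsupp.sum_single_index rfl]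

theorem π_ext {u v : U q} (h : ∀ d, π q d u = π q d v) : u = v := by
  rw [← sum_π q u, ← sum_π q v]
  have : φ q u = φ q v := by
    apply AddMonoidAlgebra.coeff_injective
    ext d
    exact h d
  rw [this]

theorem π_π (d e : ℤ × ℤ) (u : U q) : π q d (π q e u) = if d = e then π q e u else 0 := by
  have key : ∀ u : U q, ∀ d e : ℤ × ℤ, π q d (π q e u) = if d = e then π q e u else 0 := by
    intro u
    let N : Submodule K (U q) :=
      { carrier := {u | ∀ d e : ℤ × ℤ, π q d (π q e u) = if d = e then π q e u else 0}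
        add_mem' := by
          intro a b ha hb d e
          rw [map_add, map_add, ha d e, hb d e]
          split_ifs <;> simp
        zero_mem' := by intro d e; simp
        smul_mem' := by
          intro c a ha d e
          rw [map_smul, map_smul, ha d e]
          split_ifs <;> simp }
    refine ind q (N := N) ?_ ?_ u
    · intro d e
      rw [π_one]
      by_cases he : e = 0
      · subst he
        rw [if_pos rfl, π_one]
      · rw [if_neg he, map_zero, ite_self]
    · intro i u hu d e
      rw [π_θ_mul, π_θ_mul, hu (d - al i) (e - al i)]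
      by_cases h : d = e
      · subst h; rw [if_pos rfl, if_pos rfl]
      · rw [if_neg h, if_neg (by simpa using h), mul_zero]
  exact key u d e

theorem π_nonneg (d : ℤ × ℤ) (hd : ¬ (0 ≤ d.1 ∧ 0 ≤ d.2)) (u : U q) : π q d u = 0 := by
  have key : ∀ u : U q, ∀ d : ℤ × ℤ, ¬ (0 ≤ d.1 ∧ 0 ≤ d.2) → π q d u = 0 := by
    intro u
    let N : Submodule K (U q) :=
      { carrier := {u | ∀ d : ℤ × ℤ, ¬ (0 ≤ d.1 ∧ 0 ≤ d.2) → π q d u = 0}
        add_mem' := by
          intro a b ha hb d hd
          rw [map_add, ha d hd, hb d hd, add_zero]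
        zero_mem' := by intro d hd; simp
        smul_mem' := by
          intro c a ha d hd
          rw [map_smul, ha d hd, smul_zero] }
    refine ind q (N := N) ?_ ?_ u
    · intro d hd
      rw [π_one, if_neg]
      rintro rfl
      simp at hd
    · intro i u hu d hd
      rw [π_θ_mul, hu (d - al i), mul_zero]
      intro h
      apply hd
      unfold al at h
      split_ifs at h
      · have h1 := h.1
        have h2 := h.2
        simp at h1 h2
        omega
      · have h1 := h.1
        have h2 := h.2
        simp at h1 h2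
        omega
  exact key u d hd

theorem π_zero (u : U q) : ∃ c : K, π q 0 u = algebraMap K (U q) c := by
  let N : Submodule K (U q) :=
    { carrier := {u | ∃ c : K, π q 0 u = algebraMap K (U q) c}
      add_mem' := by
        rintro a b ⟨c, hc⟩ ⟨d, hd⟩
        exact ⟨c + d, by rw [map_add, hc, hd, map_add]⟩
      zero_mem' := ⟨0, by simp⟩
      smul_mem' := by
        rintro c a ⟨d, hd⟩
        exact ⟨c * d, by rw [map_smul, hd, map_mul, Algebra.smul_def]⟩ }
  refine ind q (N := N) ?_ ?_ u
  · exact ⟨1, by rw [π_one, if_pos rfl, map_one]⟩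
  · intro i u hu
    refine ⟨0, ?_⟩
    rw [π_θ_mul, π_nonneg, mul_zero, map_zero]
    unfold al
    split_ifs <;> simp

theorem κ_π (i : Fin 2) (d : ℤ × ℤ) (hq : q ≠ 0) (u : U q) : κ q i (π q d u) = q ^ (fm i d) • π q d u := by
  have key : ∀ u : U q, ∀ d : ℤ × ℤ, κ q i (π q d u) = q ^ (fm i d) • π q d u := by
    intro u
    let N : Submodule K (U q) :=
      { carrier := {u | ∀ d : ℤ × ℤ, κ q i (π q d u) = q ^ (fm i d) • π q d u}
        add_mem' := by
          intro a b ha hb d
          rw [map_add, map_add, ha d, hb d, smul_add]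
        zero_mem' := by intro d; simp
        smul_mem' := by
          intro c a ha d
          rw [map_smul, map_smul, ha d, smul_comm] }
    refine ind q (N := N) ?_ ?_ u
    · intro d
      rw [π_one]
      split_ifs with h
      · subst h
        simp [fm]
      · simp
    · intro j u hu d
      rw [π_θ_mul, map_mul, hu (d - al j), κ_θ, cc_eq, smul_mul_assoc, mul_smul_comm, smul_smul,
        ← zpow_add₀ hq, ← fm_add]
      congr 3
      abel
  exact key u d


theorem hom_ext {R : Type*} [Ring R] [Algebra K R] {f g : U q →ₐ[K] R}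
    (h : ∀ i, f (θ q i) = g (θ q i)) : f = g := by
  apply AlgHom.toLinearMap_injective
  ext u
  refine ind_eq q (f := f.toLinearMap) (g := g.toLinearMap) ?_ ?_ u
  · simp
  · intro i u hu
    have hu' : f u = g u := hu
    show f (θ q i * u) = g (θ q i * u)
    rw [map_mul, map_mul, h, hu']

/-- left multiplication -/
noncomputable def Lm (i : Fin 2) : Module.End K (U q) := Algebra.lmul K (U q) (θ q i)

/-- right multiplication -/
noncomputable def Rm (i : Fin 2) : Module.End K (U q) := LinearMap.mulRight K (θ q i)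

/-- the automorphism as a linear map -/
noncomputable def κm (i : Fin 2) : Module.End K (U q) := (κ q i).toLinearMap

@[simp] theorem Lm_apply (i : Fin 2) (u : U q) : Lm q i u = θ q i * u := rfl
@[simp] theorem Rm_apply (i : Fin 2) (u : U q) : Rm q i u = u * θ q i := rfl
@[simp] theorem κm_apply (i : Fin 2) (u : U q) : κm q i u = κ q i u := rfl

theorem serre_L (i j : Fin 2) (h : i ≠ j) : serre (three q) (Lm q i) (Lm q j) = 0 := by
  unfold Lm
  rw [← serre_map, serre_θ q i j h, map_zero]

theorem serre_R (i j : Fin 2) (h : i ≠ j) : serre (three q) (Rm q i) (Rm q j) = 0 := by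
  ext u
  have h1 := congrArg (fun v => u * v) (serre_θ q i j h)
  simp only [serre, mul_sub, mul_add, mul_smul_comm, mul_zero, pow_succ, pow_zero, one_mul] at h1
  simp only [serre, pow_succ, pow_zero, one_mul, LinearMap.sub_apply, LinearMap.add_apply,
    LinearMap.smul_apply, Module.End.mul_apply, Rm_apply, LinearMap.zero_apply]
  simp only [← mul_assoc] at h1 ⊢
  linear_combination (norm := module) -h1

theorem κL (i j : Fin 2) : κm q i * Lm q j = cc q i j • (Lm q j * κm q i) := by
  ext u
  simp

theorem κR (i j : Fin 2) : κm q i * Rm q j = cc q i j • (Rm q j * κm q i) := by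
  ext u
  simp

theorem κκ (i j : Fin 2) : κm q i * κm q j = κm q j * κm q i := by
  have h : (κ q i).comp (κ q j) = (κ q j).comp (κ q i) := by
    apply hom_ext
    intro k
    simp only [AlgHom.comp_apply, κ_θ, map_smul, smul_smul]
    rw [mul_comm]
  ext u
  exact congrArg (fun f => f u) h

theorem LR (i j : Fin 2) : Lm q i * Rm q j = Rm q j * Lm q i := by
  ext u
  simp [mul_assoc]

open TensorProduct in
theorem serre_X (hq : q ≠ 0) (i j : Fin 2) (h : i ≠ j) :
    serre (three q) (map (Lm q i) 1 + map (κm q i) (Lm q i) : Module.End K (U q ⊗[K] U q))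
      (map (Lm q j) 1 + map (κm q j) (Lm q j)) = 0 := by
  have e1 : cc q i i = q ^ 2 := by simp [cc]
  have e2 : cc q i j = (q ^ 2)⁻¹ := by simp [cc, h]
  have e3 : cc q j i = (q ^ 2)⁻¹ := by simp [cc, h.symm]
  refine serre_add hq ?_ ?_ ?_ ?_ ?_
  · have := congrArg (Module.End.rTensorAlgHom K (U q) (U q)) (serre_L q i j h)
    rw [serre_map, map_zero] at this
    exact this
  · have h1 : serre (three q) (map 1 (Lm q i) : Module.End K (U q ⊗[K] U q)) (map 1 (Lm q j)) = 0 := by
      have := congrArg (Module.End.lTensorAlgHom K (U q) (U q)) (serre_L q i j h)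
      rw [serre_map, map_zero] at this
      exact this
    have h2 := serre_comm (g := (map (κm q i) 1 : Module.End K (U q ⊗[K] U q)))
      (h := (map (κm q j) 1 : Module.End K (U q ⊗[K] U q))) h1
      (by simp only [← TensorProduct.map_mul, κκ q i j])
      (by simp only [← TensorProduct.map_mul, one_mul, mul_one])
      (by simp only [← TensorProduct.map_mul, one_mul, mul_one])
      (by simp only [← TensorProduct.map_mul, one_mul, mul_one])
    simpa only [← TensorProduct.map_mul, one_mul, mul_one] using h2
  · simp only [← TensorProduct.map_mul, one_mul, mul_one, κL, e1, TensorProduct.map_smul_left]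
  · simp only [← TensorProduct.map_mul, one_mul, mul_one, κL, e2, TensorProduct.map_smul_left]
  · simp only [← TensorProduct.map_mul, one_mul, mul_one, κL, e3, TensorProduct.map_smul_left]

open TensorProduct in
/-- `U` acts on `U ⊗ U`. -/
noncomputable def ρ (hq : q ≠ 0) : U q →ₐ[K] Module.End K (U q ⊗[K] U q) :=
  lift q (fun i => (map (Lm q i) 1 + map (κm q i) (Lm q i) : Module.End K (U q ⊗[K] U q)))
    (serre_X q hq)

open TensorProduct in
@[simp] theorem ρ_θ (hq : q ≠ 0) (i : Fin 2) :
    ρ q hq (θ q i) = (map (Lm q i) 1 + map (κm q i) (Lm q i) : Module.End K (U q ⊗[K] U q)) := by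
  unfold ρ
  rw [lift_θ]

open TensorProduct in
/-- right multiplication in the braided tensor square -/
noncomputable def Cm (i : Fin 2) : Module.End K (U q ⊗[K] U q) :=
  map (Rm q i) (κm q i) + map 1 (Rm q i)

open TensorProduct in
theorem ρ_comm_C (hq : q ≠ 0) (i : Fin 2) (u : U q) : ρ q hq u * Cm q i = Cm q i * ρ q hq u := by
  let N : Submodule K (U q) :=
    { carrier := {u | ρ q hq u * Cm q i = Cm q i * ρ q hq u}
      add_mem' := by
        intro a b ha hb
        show _ = _
        rw [map_add, add_mul, mul_add, ha, hb]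
      zero_mem' := by
        show _ = _
        rw [map_zero, zero_mul, mul_zero]
      smul_mem' := by
        intro c a ha
        show _ = _
        rw [map_smul, smul_mul_assoc, mul_smul_comm, ha] }
  refine ind q (N := N) ?_ ?_ u
  · show _ = _
    rw [map_one, one_mul, mul_one]
  · intro j u hu
    have hu' : ρ q hq u * Cm q i = Cm q i * ρ q hq u := hu
    show _ = _
    rw [map_mul, mul_assoc, hu', ← mul_assoc, ← mul_assoc]
    congr 1
    rw [ρ_θ]
    unfold Cm
    simp only [mul_add, add_mul, ← TensorProduct.map_mul, one_mul, mul_one, LR, κL, κR,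
      TensorProduct.map_smul_left, TensorProduct.map_smul_right, κκ]
    have e : cc q j i = cc q i j := by
      unfold cc
      split_ifs with h1 h2 h2
      · rfl
      · exact absurd h1.symm h2
      · exact absurd h2.symm h1
      · rfl
    rw [e]
    abel

/-- the braided coproduct -/
noncomputable def Δ (hq : q ≠ 0) : U q →ₗ[K] U q ⊗[K] U q where
  toFun u := ρ q hq u (1 ⊗ₜ 1)
  map_add' a b := by simp
  map_smul' c a := by simp

theorem Δ_def (hq : q ≠ 0) (u : U q) : Δ q hq u = ρ q hq u (1 ⊗ₜ 1) := rfl

theorem Δ_one (hq : q ≠ 0) : Δ q hq 1 = 1 ⊗ₜ 1 := by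
  rw [Δ_def, map_one]; rfl

open TensorProduct in
theorem Δ_θ_mul (hq : q ≠ 0) (i : Fin 2) (u : U q) :
    Δ q hq (θ q i * u) = map (Lm q i) 1 (Δ q hq u) + map (κm q i) (Lm q i) (Δ q hq u) := by
  rw [Δ_def, map_mul, ρ_θ]
  rfl

open TensorProduct in
theorem Δ_mul_θ (hq : q ≠ 0) (i : Fin 2) (u : U q) :
    Δ q hq (u * θ q i) = map (Rm q i) (κm q i) (Δ q hq u) + map 1 (Rm q i) (Δ q hq u) := by
  have h1 : ρ q hq (θ q i) (1 ⊗ₜ 1) = Cm q i (1 ⊗ₜ 1) := by
    rw [ρ_θ]
    unfold Cm
    simp
  rw [Δ_def, map_mul, Module.End.mul_apply, h1, ← Module.End.mul_apply, ρ_comm_C]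
  rfl


/-! ### Components of the coproduct -/

theorem π_κ (hq : q ≠ 0) (i : Fin 2) (d : ℤ × ℤ) (u : U q) :
    π q d (κ q i u) = q ^ (fm i d) • π q d u := by
  have key : ∀ u : U q, ∀ d : ℤ × ℤ, π q d (κ q i u) = q ^ (fm i d) • π q d u := by
    intro u
    let N : Submodule K (U q) :=
      { carrier := {u | ∀ d : ℤ × ℤ, π q d (κ q i u) = q ^ (fm i d) • π q d u}
        add_mem' := by
          intro a b ha hb d
          rw [map_add, map_add, ha d, hb d, map_add, smul_add]
        zero_mem' := by intro d; simp
        smul_mem' := by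
          intro c a ha d
          rw [map_smul, map_smul, ha d, map_smul, smul_comm] }
    refine ind q (N := N) ?_ ?_ u
    · intro d
      rw [map_one, π_one]
      split_ifs with h
      · subst h
        simp [fm]
      · simp
    · intro j u hu d
      rw [map_mul, κ_θ, smul_mul_assoc, map_smul, π_θ_mul, π_θ_mul, hu (d - al j), cc_eq,
        mul_smul_comm, smul_smul, ← zpow_add₀ hq, ← fm_add]
      congr 3
      abel
  exact key u d

/-- projection as an endomorphism -/
noncomputable def πm (d : ℤ × ℤ) : Module.End K (U q) := π q d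

@[simp] theorem πm_apply (d : ℤ × ℤ) (u : U q) : πm q d u = π q d u := rfl

theorem πL (d : ℤ × ℤ) (i : Fin 2) : πm q d * Lm q i = Lm q i * πm q (d - al i) := by
  ext u; simp [π_θ_mul]

theorem πR (d : ℤ × ℤ) (i : Fin 2) : πm q d * Rm q i = Rm q i * πm q (d - al i) := by
  ext u; simp [π_mul_θ]

theorem πκ (hq : q ≠ 0) (d : ℤ × ℤ) (i : Fin 2) : πm q d * κm q i = q ^ (fm i d) • πm q d := by
  ext u; simp [π_κ q hq]

theorem κπ (hq : q ≠ 0) (d : ℤ × ℤ) (i : Fin 2) : κm q i * πm q d = q ^ (fm i d) • πm q d := by
  ext u; simp [κ_π q _ _ hq]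

theorem ππ (d : ℤ × ℤ) : πm q d * πm q d = πm q d := by
  ext u; simp [π_π]

open TensorProduct in
/-- component of the coproduct with second factor in degree `β` -/
noncomputable def T (hq : q ≠ 0) (β : ℤ × ℤ) : U q →ₗ[K] U q ⊗[K] U q :=
  (map (1 : Module.End K (U q)) (πm q β)).comp (Δ q hq)

open TensorProduct in
theorem T_def (hq : q ≠ 0) (β : ℤ × ℤ) (u : U q) :
    T q hq β u = map (1 : Module.End K (U q)) (πm q β) (Δ q hq u) := rfl

open TensorProduct in
theorem map_mul_apply (f₁ f₂ g₁ g₂ : Module.End K (U q)) (t : U q ⊗[K] U q) :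
    map f₁ g₁ (map f₂ g₂ t) = map (f₁ * f₂) (g₁ * g₂) t := by
  rw [TensorProduct.map_mul]; rfl

open TensorProduct in
theorem T_θ_mul (hq : q ≠ 0) (β : ℤ × ℤ) (i : Fin 2) (u : U q) :
    T q hq β (θ q i * u) = map (Lm q i) 1 (T q hq β u) +
      map (κm q i) (Lm q i) (T q hq (β - al i) u) := by
  simp only [T_def, Δ_θ_mul, map_add, map_mul_apply, one_mul, mul_one, πL]

open TensorProduct in
theorem T_mul_θ (hq : q ≠ 0) (β : ℤ × ℤ) (i : Fin 2) (u : U q) :
    T q hq β (u * θ q i) = q ^ (fm i β) • map (Rm q i) 1 (T q hq β u) +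
      map 1 (Rm q i) (T q hq (β - al i) u) := by
  simp only [T_def, Δ_mul_θ, map_add, map_mul_apply, one_mul, mul_one, πR, πκ q hq,
    TensorProduct.map_smul_right, LinearMap.smul_apply]

open TensorProduct in
theorem T_one (hq : q ≠ 0) (β : ℤ × ℤ) : T q hq β 1 = if β = 0 then 1 ⊗ₜ 1 else 0 := by
  rw [T_def, Δ_one, map_tmul, πm_apply, π_one]
  split_ifs <;> simp

open TensorProduct in
/-- homogeneity of the coproduct -/
theorem T_homog (hq : q ≠ 0) (μ β : ℤ × ℤ) (u : U q) :
    T q hq β (π q μ u) = map (πm q (μ - β)) 1 (T q hq β u) := by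
  have key : ∀ u : U q, ∀ μ β : ℤ × ℤ,
      T q hq β (π q μ u) = map (πm q (μ - β)) 1 (T q hq β u) := by
    intro u
    let N : Submodule K (U q) :=
      { carrier := {u | ∀ μ β : ℤ × ℤ, T q hq β (π q μ u) = map (πm q (μ - β)) 1 (T q hq β u)}
        add_mem' := by
          intro a b ha hb μ β
          rw [map_add, map_add, ha μ β, hb μ β, map_add, map_add]
        zero_mem' := by intro μ β; simp
        smul_mem' := by
          intro c a ha μ β
          rw [map_smul, map_smul, ha μ β, map_smul, map_smul] }
    refine ind q (N := N) ?_ ?_ u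
    · intro μ β
      rw [π_one, T_one]
      by_cases hβ : β = 0
      · subst hβ
        rw [if_pos rfl, map_tmul, πm_apply, π_one, sub_zero]
        split_ifs
        · rw [T_one, if_pos rfl]; rfl
        · simp
      · rw [if_neg hβ, map_zero]
        split_ifs
        · rw [T_one, if_neg hβ]
        · simp
    · intro i u hu μ β
      rw [π_θ_mul, T_θ_mul, T_θ_mul, hu (μ - al i) β, hu (μ - al i) (β - al i), map_add]
      simp only [map_mul_apply, one_mul, mul_one, πL, πκ q hq, κπ q hq]
      have e1 : μ - al i - β = μ - β - al i := by abel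
      have e2 : μ - al i - (β - al i) = μ - β := by abel
      rw [e1, e2]
  exact key u μ β

open TensorProduct in
theorem T_zero (hq : q ≠ 0) (u : U q) : T q hq 0 u = u ⊗ₜ 1 := by
  have h1 : ∀ i, (0 : ℤ × ℤ) - al i ≠ 0 ∧ ¬ (0 ≤ ((0 : ℤ × ℤ) - al i).1 ∧ 0 ≤ ((0 : ℤ × ℤ) - al i).2) := by
    intro i
    unfold al
    fin_cases i <;> simp
  have h2 : ∀ i, πm q (0 - al i) = 0 := by
    intro i
    ext v
    exact π_nonneg q _ (h1 i).2 v
  refine ind_eq q (f := T q hq 0) (g := (TensorProduct.mk K (U q) (U q)).flip 1) ?_ ?_ u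
  · rw [T_one, if_pos rfl]
    rfl
  · intro i u hu
    rw [T_θ_mul, hu, T_def q hq (0 - al i), h2]
    simp

open TensorProduct in
theorem T_counit (hq : q ≠ 0) (β : ℤ × ℤ) (u : U q) :
    map (πm q 0) 1 (T q hq β u) = 1 ⊗ₜ π q β u := by
  have h1 : ∀ i, ¬ (0 ≤ ((0 : ℤ × ℤ) - al i).1 ∧ 0 ≤ ((0 : ℤ × ℤ) - al i).2) := by
    intro i
    unfold al
    fin_cases i <;> simp
  have h2 : ∀ i, πm q (0 - al i) = 0 := by
    intro i
    ext v
    exact π_nonneg q _ (h1 i) v
  have key : ∀ u : U q, ∀ β : ℤ × ℤ, map (πm q 0) 1 (T q hq β u) = 1 ⊗ₜ π q β u := by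
    intro u
    let N : Submodule K (U q) :=
      { carrier := {u | ∀ β : ℤ × ℤ, map (πm q 0) 1 (T q hq β u) = 1 ⊗ₜ π q β u}
        add_mem' := by
          intro a b ha hb β
          rw [map_add, map_add, ha β, hb β, map_add, tmul_add]
        zero_mem' := by intro β; simp
        smul_mem' := by
          intro c a ha β
          rw [map_smul, map_smul, ha β, map_smul, tmul_smul] }
    refine ind q (N := N) ?_ ?_ u
    · intro β
      rw [T_one, π_one]
      split_ifs
      · rw [map_tmul, πm_apply, π_one, if_pos rfl]; rfl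
      · simp
    · intro i u hu β
      rw [T_θ_mul, map_add]
      have e0 : fm i 0 = 0 := by unfold fm; simp
      have h3 : map (πm q 0) 1 (map (κm q i) (Lm q i) (T q hq (β - al i) u)) =
          map 1 (Lm q i) (map (πm q 0) 1 (T q hq (β - al i) u)) := by
        simp only [map_mul_apply, one_mul, mul_one, πκ q hq, e0, zpow_zero, one_smul]
      have h4 : map (πm q 0) (1 : Module.End K (U q))
          (map (Lm q i) (1 : Module.End K (U q)) (T q hq β u)) = 0 := by
        simp only [map_mul_apply, one_mul, mul_one, πL, h2]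
        simp
      rw [h3, h4, hu (β - al i), map_tmul, π_θ_mul, zero_add]
      rfl
  exact key u β

/-! ### Slices -/

open TensorProduct in
/-- apply a functional to the second factor -/
noncomputable def sl (ψ : U q →ₗ[K] K) : U q ⊗[K] U q →ₗ[K] U q :=
  (TensorProduct.rid K (U q)).toLinearMap.comp (map (1 : Module.End K (U q)) ψ)

@[simp] theorem sl_tmul (ψ : U q →ₗ[K] K) (a b : U q) : sl q ψ (a ⊗ₜ b) = ψ b • a := by
  simp [sl]

open TensorProduct in
theorem sl_map (ψ : U q →ₗ[K] K) (f : Module.End K (U q)) (t : U q ⊗[K] U q) :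
    sl q ψ (map f (1 : Module.End K (U q)) t) = f (sl q ψ t) := by
  induction t using TensorProduct.induction_on with
  | zero => simp
  | tmul a b => simp
  | add a b ha hb => rw [map_add, map_add, ha, hb, map_add, map_add]

theorem eq_zero_of_sl {t : U q ⊗[K] U q} (h : ∀ ψ, sl q ψ t = 0) : t = 0 := by
  classical
  let b := Module.Basis.ofVectorSpace K (U q)
  apply (TensorProduct.equivFinsuppOfBasisRight b).injective
  rw [map_zero]
  ext i
  have h1 : ∀ t : U q ⊗[K] U q, TensorProduct.equivFinsuppOfBasisRight b t i = sl q (b.coord i) t := by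
    intro t
    induction t using TensorProduct.induction_on with
    | zero => simp
    | tmul x y => simp
    | add x y hx hy => rw [map_add, map_add, Finsupp.add_apply, hx, hy]
  rw [h1, h]
  rfl

open TensorProduct in
/-- apply a functional to the first factor -/
noncomputable def sr (ψ : U q →ₗ[K] K) : U q ⊗[K] U q →ₗ[K] U q :=
  (TensorProduct.lid K (U q)).toLinearMap.comp (map ψ (1 : Module.End K (U q)))

@[simp] theorem sr_tmul (ψ : U q →ₗ[K] K) (a b : U q) : sr q ψ (a ⊗ₜ b) = ψ a • b := by
  simp [sr]

open TensorProduct in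
theorem sr_map (ψ : U q →ₗ[K] K) (f : Module.End K (U q)) (t : U q ⊗[K] U q) :
    sr q ψ (map (1 : Module.End K (U q)) f t) = f (sr q ψ t) := by
  induction t using TensorProduct.induction_on with
  | zero => simp
  | tmul a b => simp
  | add a b ha hb => rw [map_add, map_add, ha, hb, map_add, map_add]

theorem eq_zero_of_sr {t : U q ⊗[K] U q} (h : ∀ ψ, sr q ψ t = 0) : t = 0 := by
  classical
  let b := Module.Basis.ofVectorSpace K (U q)
  apply (TensorProduct.equivFinsuppOfBasisLeft b).injective
  rw [map_zero]
  ext i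
  have h1 : ∀ t : U q ⊗[K] U q, TensorProduct.equivFinsuppOfBasisLeft b t i = sr q (b.coord i) t := by
    intro t
    induction t using TensorProduct.induction_on with
    | zero => simp
    | tmul x y => simp
    | add x y hx hy => rw [map_add, map_add, Finsupp.add_apply, hx, hy]
  rw [h1, h]
  rfl

open TensorProduct in
/-- an element of the tensor square all of whose components vanish is zero -/
theorem eq_zero_of_comp {t : U q ⊗[K] U q}
    (h : ∀ β, map (1 : Module.End K (U q)) (πm q β) t = 0) : t = 0 := by
  apply eq_zero_of_sr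
  intro ψ
  apply π_ext
  intro d
  have := sr_map q ψ (πm q d) t
  rw [h d, map_zero] at this
  rw [map_zero]
  exact this.symm


/-! ### The key lemma on `q`-commuting elements -/

/-- the character sending `θ i` to `X` and the other generator to zero -/
noncomputable def pX (i : Fin 2) : U q →ₐ[K] Polynomial K :=
  lift q (fun j => if j = i then Polynomial.X else 0) (by
    intro j k hjk
    unfold serre
    by_cases hj : j = i
    · have hk : k ≠ i := fun h => hjk (hj.trans h.symm)
      simp [hj, hk]
    · simp [hj])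

@[simp] theorem pX_θ (i j : Fin 2) : pX q i (θ q j) = if j = i then Polynomial.X else 0 := by
  unfold pX
  rw [lift_θ]

/-- the section -/
noncomputable def sX (i : Fin 2) : Polynomial K →ₐ[K] U q := Polynomial.aeval (θ q i)

@[simp] theorem sX_X (i : Fin 2) : sX q i Polynomial.X = θ q i := by
  unfold sX; simp

theorem al_ne {i j : Fin 2} (h : j ≠ i) (n : ℤ) : ¬ (0 ≤ (n • al i - al j).1 ∧ 0 ≤ (n • al i - al j).2) := by
  unfold al
  fin_cases i <;> fin_cases j <;> simp at h ⊢

theorem sX_pX (i : Fin 2) (n : ℤ) (u : U q) : sX q i (pX q i (π q (n • al i) u)) = π q (n • al i) u := by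
  have key : ∀ u : U q, ∀ n : ℤ, sX q i (pX q i (π q (n • al i) u)) = π q (n • al i) u := by
    intro u
    let N : Submodule K (U q) :=
      { carrier := {u | ∀ n : ℤ, sX q i (pX q i (π q (n • al i) u)) = π q (n • al i) u}
        add_mem' := by
          intro a b ha hb n
          rw [map_add, map_add, map_add, ha n, hb n]
        zero_mem' := by intro n; simp
        smul_mem' := by
          intro c a ha n
          rw [map_smul, map_smul, map_smul, ha n] }
    refine ind q (N := N) ?_ ?_ u
    · intro n
      rw [π_one]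
      split_ifs <;> simp
    · intro j u hu n
      rw [π_θ_mul]
      by_cases hj : j = i
      · subst hj
        have e : n • al j - al j = (n - 1) • al j := by rw [sub_smul, one_smul]
        rw [e, map_mul, pX_θ, if_pos rfl, map_mul, sX_X, hu (n - 1)]
      · rw [π_nonneg q _ (al_ne hj n)]
        simp
  exact key u n

theorem Lπ_eq_Rπ (i : Fin 2) (n : ℤ) : Lm q i * πm q (n • al i) = Rm q i * πm q (n • al i) := by
  ext u
  simp only [Module.End.mul_apply, Lm_apply, Rm_apply, πm_apply]
  rw [← sX_pX q i n u, ← sX_X q i, ← map_mul, ← map_mul, mul_comm]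

open TensorProduct in
theorem map_L_ne (i : Fin 2) (n : ℤ) (t : U q ⊗[K] U q)
    (h0 : map (1 : Module.End K (U q)) (πm q (n • al i)) t = t)
    (h : map (1 : Module.End K (U q)) (Lm q i) t = 0) : t = 0 := by
  have h1 : map (LinearMap.id : U q →ₗ[K] U q) ((LinearMap.mulLeft K (Polynomial.X : Polynomial K)))
      (map (LinearMap.id : U q →ₗ[K] U q) (pX q i).toLinearMap t) = 0 := by
    have : map (LinearMap.id : U q →ₗ[K] U q) (pX q i).toLinearMap
        (map (1 : Module.End K (U q)) (Lm q i) t) = 0 := by rw [h, map_zero]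
    rw [← this]
    generalize t = t
    induction t using TensorProduct.induction_on with
    | zero => simp
    | tmul a b => simp
    | add a b ha hb => simp only [map_add, ha, hb]
  have h2 : Function.Injective (map (LinearMap.id : U q →ₗ[K] U q)
      (LinearMap.mulLeft K (Polynomial.X : Polynomial K))) :=
    Module.Flat.lTensor_preserves_injective_linearMap (M := U q) _
      (fun a b hab => mul_left_cancel₀ Polynomial.X_ne_zero hab)
  have h3 : map (LinearMap.id : U q →ₗ[K] U q) (pX q i).toLinearMap t = 0 := by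
    apply h2
    rw [h1, map_zero]
  have h4 : map (LinearMap.id : U q →ₗ[K] U q) (sX q i).toLinearMap
      (map (LinearMap.id : U q →ₗ[K] U q) (pX q i).toLinearMap t) = t := by
    conv_lhs => rw [← h0]
    conv_rhs => rw [← h0]
    generalize t = t
    induction t using TensorProduct.induction_on with
    | zero => simp
    | tmul a b =>
      simp only [map_tmul, Module.End.one_apply, πm_apply, LinearMap.id_apply, AlgHom.toLinearMap_apply,
        sX_pX]
    | add a b ha hb => simp only [map_add, ha, hb]
  rw [← h4, h3, map_zero]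

/-- the degree in direction `i` -/
def co (i : Fin 2) (d : ℤ × ℤ) : ℤ := if i = 0 then d.1 else d.2

theorem fm_al (i : Fin 2) : fm i (al i) = 2 := by
  unfold fm al
  fin_cases i <;> simp

theorem fm_sub (i : Fin 2) (d e : ℤ × ℤ) : fm i (d - e) = fm i d - fm i e := by
  unfold fm
  split_ifs <;> simp <;> ring

theorem fm_smul (i : Fin 2) (n : ℤ) : fm i (n • al i) = 2 * n := by
  unfold fm al
  fin_cases i <;> simp

theorem nontriv : (1 : U q) ≠ 0 := by
  intro h
  have := congrArg (pX q 0) h
  rw [map_one, map_zero] at this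
  exact one_ne_zero this

open TensorProduct in
/-- **Key lemma.** A homogeneous element that `q`-commutes with a generator. -/
theorem key_lemma (hq : q ≠ 0) (i : Fin 2) (μ : ℤ × ℤ) (u : U q) (hu : π q μ u = u) (hu0 : u ≠ 0)
    (lam : K) (h : θ q i * u = lam • (u * θ q i)) :
    ∃ N : ℕ, lam = q ^ (fm i μ - 2 * (N : ℤ)) := by
  -- components along multiples of the simple root
  have hT : ∀ β, map (πm q (μ - β)) (1 : Module.End K (U q)) (T q hq β u) = T q hq β u := by
    intro β
    rw [← T_homog, hu]
  have hvan : ∀ n : ℕ, μ.1 < n → μ.2 < n → T q hq ((n : ℤ) • al i) u = 0 := by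
    intro n h1 h2
    rw [← hT]
    have : πm q (μ - (n : ℤ) • al i) = 0 := by
      ext v
      apply π_nonneg
      unfold al
      fin_cases i <;> simp <;> omega
    rw [this]
    simp
  have h0 : T q hq (((0 : ℕ) : ℤ) • al i) u ≠ 0 := by
    simp only [Nat.cast_zero, zero_smul]
    rw [T_zero]
    intro h
    have := congrArg (map (LinearMap.id : U q →ₗ[K] U q) (pX q i).toLinearMap) h
    rw [map_tmul, map_zero] at this
    simp only [LinearMap.id_apply, AlgHom.toLinearMap_apply, map_one] at this
    have h' := congrArg (map (LinearMap.id : U q →ₗ[K] U q)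
      (Polynomial.aeval (R := K) (0 : K)).toLinearMap) this
    rw [map_tmul, map_zero] at h'
    simp only [LinearMap.id_apply, AlgHom.toLinearMap_apply, map_one] at h'
    have h'' := congrArg (TensorProduct.rid K (U q)) h'
    rw [TensorProduct.rid_tmul, map_zero, one_smul] at h''
    exact hu0 h''
  -- the largest index with nonzero component
  obtain ⟨N, hN, hN1⟩ : ∃ N : ℕ, T q hq ((N : ℤ) • al i) u ≠ 0 ∧
      T q hq (((N + 1 : ℕ) : ℤ) • al i) u = 0 := by
    by_contra hcon
    push Not at hcon
    have hall : ∀ n : ℕ, T q hq ((n : ℤ) • al i) u ≠ 0 := by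
      intro n
      induction n with
      | zero => exact h0
      | succ n ih => exact hcon n ih
    exact hall (μ.1.toNat + μ.2.toNat + 1) (hvan _ (by omega) (by omega))
  refine ⟨N, ?_⟩
  have hE : T q hq (((N + 1 : ℕ) : ℤ) • al i) (θ q i * u) =
      lam • T q hq (((N + 1 : ℕ) : ℤ) • al i) (u * θ q i) := by
    rw [h, map_smul]
  have e1 : ((N + 1 : ℕ) : ℤ) • al i - al i = (N : ℤ) • al i := by
    push_cast
    rw [add_smul, one_smul, add_sub_cancel_right]
  rw [T_θ_mul, T_mul_θ, hN1, e1] at hE
  simp only [map_zero, smul_zero, zero_add] at hE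
  set t := T q hq ((N : ℤ) • al i) u with ht
  have ht1 : map (1 : Module.End K (U q)) (πm q ((N : ℤ) • al i)) t = t := by
    rw [ht, T_def, map_mul_apply, one_mul, ππ]
  have ht2 : map (πm q (μ - (N : ℤ) • al i)) (1 : Module.End K (U q)) t = t := hT _
  have h3 : map (κm q i) (Lm q i) t = q ^ (fm i μ - 2 * (N : ℤ)) •
      map (1 : Module.End K (U q)) (Lm q i) t := by
    conv_lhs => rw [← ht2]
    rw [map_mul_apply, κπ q hq, mul_one, TensorProduct.map_smul_left, LinearMap.smul_apply, fm_sub,
      fm_smul]
    conv_rhs => rw [← ht2, map_mul_apply, one_mul, mul_one]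
  have h4 : map (1 : Module.End K (U q)) (Rm q i) t = map (1 : Module.End K (U q)) (Lm q i) t := by
    conv_lhs => rw [← ht1]
    conv_rhs => rw [← ht1]
    rw [map_mul_apply, map_mul_apply, Lπ_eq_Rπ]
  rw [h3, h4, ← sub_eq_zero, ← sub_smul] at hE
  rcases smul_eq_zero.mp hE with h5 | h5
  · exact (sub_eq_zero.mp h5).symm
  · exact absurd (map_L_ne q i _ t ht1 h5) hN


/-! ### The braided antipode -/

/-- `U` acts on itself by `θ i ↦ (v ↦ - κ_i(v) θ_i)` -/
noncomputable def σ (hq : q ≠ 0) : U q →ₐ[K] Module.End K (U q) :=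
  lift q (fun i => (-1 : K) • (Rm q i * κm q i)) (by
    intro i j h
    have e1 : cc q i i = q ^ 2 := by simp [cc]
    have e2 : cc q i j = (q ^ 2)⁻¹ := by simp [cc, h]
    have e3 : cc q j i = (q ^ 2)⁻¹ := by simp [cc, h.symm]
    apply serre_smul
    refine serre_twist hq (serre_R q i j h) (κκ q i j) ?_ ?_ ?_
    · rw [κR, e1]
    · rw [κR, e2]
    · rw [κR, e3])

@[simp] theorem σ_θ (hq : q ≠ 0) (i : Fin 2) : σ q hq (θ q i) = (-1 : K) • (Rm q i * κm q i) := by
  unfold σ
  rw [lift_θ]

/-- the braided antipode -/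
noncomputable def S (hq : q ≠ 0) : U q →ₗ[K] U q where
  toFun u := σ q hq u 1
  map_add' a b := by simp
  map_smul' c a := by simp

theorem S_def (hq : q ≠ 0) (u : U q) : S q hq u = σ q hq u 1 := rfl

theorem S_one (hq : q ≠ 0) : S q hq 1 = 1 := by
  have h : σ q hq 1 = 1 := map_one _
  rw [S_def, h]; rfl

theorem S_θ_mul (hq : q ≠ 0) (i : Fin 2) (u : U q) :
    S q hq (θ q i * u) = - (κ q i (S q hq u) * θ q i) := by
  rw [S_def, map_mul, σ_θ]
  simp [S_def]

theorem σ_comm (hq : q ≠ 0) (i : Fin 2) (u : U q) :
    σ q hq u * (Lm q i * κm q i) = (Lm q i * κm q i) * σ q hq u := by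
  let N : Submodule K (U q) :=
    { carrier := {u | σ q hq u * (Lm q i * κm q i) = (Lm q i * κm q i) * σ q hq u}
      add_mem' := by
        intro a b ha hb
        show _ = _
        rw [map_add, add_mul, mul_add, ha, hb]
      zero_mem' := by
        show _ = _
        rw [map_zero, zero_mul, mul_zero]
      smul_mem' := by
        intro c a ha
        show _ = _
        rw [map_smul, smul_mul_assoc, mul_smul_comm, ha] }
  refine ind q (N := N) ?_ ?_ u
  · show _ = _
    rw [map_one, one_mul, mul_one]
  · intro j u hu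
    have hu' : σ q hq u * (Lm q i * κm q i) = (Lm q i * κm q i) * σ q hq u := hu
    show _ = _
    have key : σ q hq (θ q j) * (Lm q i * κm q i) = (Lm q i * κm q i) * σ q hq (θ q j) := ?_
    · rw [map_mul, mul_assoc, hu', ← mul_assoc (σ q hq (θ q j)), key, mul_assoc]
    rw [σ_θ, smul_mul_assoc, mul_smul_comm]
    congr 1
    have e : cc q j i = cc q i j := by
      unfold cc
      split_ifs with h1 h2 h2
      · rfl
      · exact absurd h1.symm h2
      · exact absurd h2.symm h1
      · rfl
    calc Rm q j * κm q j * (Lm q i * κm q i) = Rm q j * (κm q j * Lm q i) * κm q i := by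
          simp only [mul_assoc]
      _ = cc q j i • (Rm q j * Lm q i * (κm q j * κm q i)) := by
          rw [κL]; simp only [mul_assoc, mul_smul_comm, smul_mul_assoc]
      _ = cc q i j • (Lm q i * Rm q j * (κm q i * κm q j)) := by rw [e, LR, κκ]
      _ = Lm q i * (κm q i * Rm q j) * κm q j := by
          rw [κR]; simp only [mul_assoc, mul_smul_comm, smul_mul_assoc]
      _ = _ := by simp only [mul_assoc]

theorem S_mul_θ (hq : q ≠ 0) (i : Fin 2) (u : U q) :
    S q hq (u * θ q i) = - (θ q i * κ q i (S q hq u)) := by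
  have h1 : σ q hq (θ q i) 1 = - ((Lm q i * κm q i) 1) := by
    rw [σ_θ]; simp
  rw [S_def, map_mul, Module.End.mul_apply, h1, map_neg, ← Module.End.mul_apply, σ_comm]
  simp [S_def]

theorem S_κ (hq : q ≠ 0) (i : Fin 2) (u : U q) : S q hq (κ q i u) = κ q i (S q hq u) := by
  refine ind_eq q (f := (S q hq).comp (κ q i).toLinearMap) (g := (κ q i).toLinearMap.comp (S q hq))
    ?_ ?_ u
  · simp [S_one]
  · intro j u hu
    have hu' : S q hq (κ q i u) = κ q i (S q hq u) := hu
    show S q hq (κ q i (θ q j * u)) = κ q i (S q hq (θ q j * u))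
    have hk := congrArg (fun f : Module.End K (U q) => f (S q hq u)) (κκ q i j)
    simp only [Module.End.mul_apply, κm_apply] at hk
    rw [map_mul, κ_θ, smul_mul_assoc, map_smul, S_θ_mul, S_θ_mul, hu', map_neg, map_mul, κ_θ, hk,
      mul_smul_comm, smul_neg]

open TensorProduct in
theorem antipode (hq : q ≠ 0) (u : U q) :
    LinearMap.mul' K (U q) (map (S q hq) (1 : Module.End K (U q)) (Δ q hq u)) = π q 0 u := by
  have h1 : ∀ (i : Fin 2) (t : U q ⊗[K] U q),
      LinearMap.mul' K (U q) (map (S q hq) (1 : Module.End K (U q)) (map (Lm q i) 1 t)) +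
      LinearMap.mul' K (U q) (map (S q hq) (1 : Module.End K (U q)) (map (κm q i) (Lm q i) t)) = 0 := by
    intro i t
    induction t using TensorProduct.induction_on with
    | zero => simp
    | tmul a b =>
      simp only [map_tmul, Lm_apply, κm_apply, Module.End.one_apply, LinearMap.mul'_apply, S_θ_mul,
        S_κ]
      rw [neg_mul, mul_assoc, neg_add_cancel]
    | add a b ha hb =>
      simp only [map_add]
      rw [add_add_add_comm, ha, hb, add_zero]
  refine ind_eq q (f := (LinearMap.mul' K (U q)).comp
    ((map (S q hq) (1 : Module.End K (U q))).comp (Δ q hq))) (g := π q 0) ?_ ?_ u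
  · simp [Δ_one, S_one, π_one]
  · intro i u _
    show LinearMap.mul' K (U q) (map (S q hq) (1 : Module.End K (U q)) (Δ q hq (θ q i * u))) = _
    rw [Δ_θ_mul, map_add, map_add, h1, π_θ_mul, π_nonneg, mul_zero]
    unfold al
    fin_cases i <;> simp

/-- the exponent `(μ, μ) - 2 (ρ, μ)` -/
def ex (d : ℤ × ℤ) : ℤ := 2 * (d.1 - d.2) ^ 2 - 2 * (d.1 + d.2)

theorem SS (hq : q ≠ 0) (d : ℤ × ℤ) (u : U q) :
    S q hq (S q hq (π q d u)) = q ^ (ex d) • π q d u := by
  have key : ∀ u : U q, ∀ d : ℤ × ℤ, S q hq (S q hq (π q d u)) = q ^ (ex d) • π q d u := by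
    intro u
    let N : Submodule K (U q) :=
      { carrier := {u | ∀ d : ℤ × ℤ, S q hq (S q hq (π q d u)) = q ^ (ex d) • π q d u}
        add_mem' := by
          intro a b ha hb d
          rw [map_add, map_add, map_add, ha d, hb d, smul_add]
        zero_mem' := by intro d; simp
        smul_mem' := by
          intro c a ha d
          rw [map_smul, map_smul, map_smul, ha d, smul_comm] }
    refine ind q (N := N) ?_ ?_ u
    · intro d
      rw [π_one]
      split_ifs with h
      · subst h
        simp [S_one, ex]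
      · simp
    · intro i u hu d
      have hd : ex d = ex (d - al i) + fm i (d - al i) + fm i (d - al i) := by
        unfold ex fm al
        fin_cases i <;> simp <;> ring
      rw [π_θ_mul, S_θ_mul, map_neg, S_mul_θ, neg_neg, S_κ, hu (d - al i), map_smul, map_smul,
        κ_π q _ _ hq, map_smul, κ_π q _ _ hq, smul_smul, smul_smul, ← zpow_add₀ hq,
        ← zpow_add₀ hq, mul_smul_comm, hd]
  exact key u d

/-! ### The center -/

theorem zpow_inj' (hq : q ≠ 0) (hr : ∀ n : ℕ, 0 < n → q ^ n ≠ 1) {m n : ℤ} (h : q ^ m = q ^ n) :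
    m = n := by
  have h1 : q ^ (m - n) = 1 := by rw [zpow_sub₀ hq, h, div_self (zpow_ne_zero _ hq)]
  by_contra hmn
  rcases lt_or_gt_of_ne hmn with h2 | h2
  · have h3 : q ^ (n - m) = 1 := by
      rw [← neg_sub, zpow_neg, h1, inv_one]
    have h4 : n - m = (((n - m).toNat : ℕ) : ℤ) := by omega
    rw [h4, zpow_natCast] at h3
    exact hr _ (by omega) h3
  · have h4 : m - n = (((m - n).toNat : ℕ) : ℤ) := by omega
    rw [h4, zpow_natCast] at h1
    exact hr _ (by omega) h1

open TensorProduct in
theorem central_zero (hq : q ≠ 0) (hr : ∀ n : ℕ, 0 < n → q ^ n ≠ 1) (a : ℕ) :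
    0 < a → ∀ z : U q, π q ((a : ℤ), (a : ℤ)) z = z → (∀ i, θ q i * z = z * θ q i) → z = 0 := by
  induction a using Nat.strong_induction_on with
  | _ a IH =>
  intro ha z hz hc
  set μ : ℤ × ℤ := ((a : ℤ), (a : ℤ)) with hμ
  have hfμ : ∀ i, fm i μ = 0 := by intro i; unfold fm; simp [hμ]
  have hκz : ∀ i, κ q i z = z := by
    intro i
    rw [← hz, κ_π q _ _ hq, hfμ, zpow_zero, one_smul]
  have hT : ∀ β, map (πm q (μ - β)) (1 : Module.End K (U q)) (T q hq β z) = T q hq β z := by
    intro β
    rw [← T_homog, hz]
  have hTπ : ∀ β, map (1 : Module.End K (U q)) (πm q β) (T q hq β z) = T q hq β z := by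
    intro β
    rw [T_def, map_mul_apply, one_mul, ππ]
  -- the components outside the box vanish
  have hout1 : ∀ β : ℤ × ℤ, ¬ (0 ≤ β.1 ∧ 0 ≤ β.2) → T q hq β z = 0 := by
    intro β hβ
    have : πm q β = 0 := by
      ext v
      exact π_nonneg q _ hβ v
    rw [T_def, this]
    simp
  have hout2 : ∀ β : ℤ × ℤ, ¬ (0 ≤ (μ - β).1 ∧ 0 ≤ (μ - β).2) → T q hq β z = 0 := by
    intro β hβ
    have : πm q (μ - β) = 0 := by
      ext v
      exact π_nonneg q _ hβ v
    rw [← hT, this]
    simp
  -- the inner components vanish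
  have hin : ∀ n : ℕ, ∀ β : ℤ × ℤ, β.1 + β.2 = n → β ≠ 0 → β ≠ μ → T q hq β z = 0 := by
    intro n
    induction n with
    | zero =>
      intro β hβ hβ0 _
      by_cases h : 0 ≤ β.1 ∧ 0 ≤ β.2
      · exfalso
        apply hβ0
        have h1 := h.1
        have h2 := h.2
        ext <;> simp <;> push_cast at hβ <;> omega
      · exact hout1 β h
    | succ n ih =>
      intro β hβ hβ0 hβμ
      by_cases hb1 : 0 ≤ β.1 ∧ 0 ≤ β.2
      swap
      · exact hout1 β hb1
      by_cases hb2 : 0 ≤ (μ - β).1 ∧ 0 ≤ (μ - β).2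
      swap
      · exact hout2 β hb2
      -- the two error terms agree
      have herr : ∀ i, map (κm q i) (Lm q i) (T q hq (β - al i) z) =
          map (1 : Module.End K (U q)) (Rm q i) (T q hq (β - al i) z) := by
        intro i
        by_cases h0 : β - al i = 0
        · rw [h0, T_zero]
          simp [hκz i]
        · have h1 : T q hq (β - al i) z = 0 := by
            apply ih _ _ h0
            · intro h2
              have h3 : μ - β = - al i := by rw [← h2]; abel
              rw [h3] at hb2
              revert hb2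
              unfold al
              fin_cases i <;> simp
            · unfold al
              push_cast at hβ
              fin_cases i <;> simp <;> omega
          rw [h1, map_zero, map_zero]
      have hE : ∀ i, map (Lm q i) (1 : Module.End K (U q)) (T q hq β z) =
          q ^ (fm i β) • map (Rm q i) (1 : Module.End K (U q)) (T q hq β z) := by
        intro i
        have h1 := congrArg (T q hq β) (hc i)
        rw [T_θ_mul, T_mul_θ, herr i] at h1
        exact add_right_cancel h1
      apply eq_zero_of_sl
      intro ψ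
      by_contra hw
      set w := sl q ψ (T q hq β z) with hwdef
      have hw1 : π q (μ - β) w = w := by
        rw [hwdef]
        have := sl_map q ψ (πm q (μ - β)) (T q hq β z)
        rw [hT] at this
        exact this.symm
      have hw2 : ∀ i, θ q i * w = q ^ (fm i β) • (w * θ q i) := by
        intro i
        have h1 := congrArg (sl q ψ) (hE i)
        rw [sl_map, map_smul, sl_map] at h1
        exact h1
      have hfb : ∀ i, fm i (μ - β) = - fm i β := by
        intro i
        rw [fm_sub, hfμ, zero_sub]
      have hβeq : β.1 = β.2 := by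
        obtain ⟨N0, hN0⟩ := key_lemma q hq 0 (μ - β) w hw1 hw _ (hw2 0)
        obtain ⟨N1, hN1⟩ := key_lemma q hq 1 (μ - β) w hw1 hw _ (hw2 1)
        have h0 := zpow_inj' q hq hr hN0
        have h1 := zpow_inj' q hq hr hN1
        rw [hfb] at h0 h1
        unfold fm at h0 h1
        simp at h0 h1
        omega
      have hfβ : ∀ i, fm i β = 0 := by
        intro i
        unfold fm
        split_ifs <;> omega
      apply hw
      have hb1' := hb1.1
      have hb2' := hb2.1
      have hb2'' := hb2.2
      simp [hμ] at hb2' hb2''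
      have hβpos : 0 < β.1 := by
        push_cast at hβ
        omega
      have hβlt : β.1 < a := by
        rcases lt_or_eq_of_le hb2' with h | h
        · exact h
        · exfalso
          apply hβμ
          rw [hμ]
          ext <;> simp <;> omega
      refine IH (a - β.1.toNat) (by omega) (by omega) w ?_ ?_
      · have e : ((((a - β.1.toNat : ℕ) : ℤ)), (((a - β.1.toNat : ℕ) : ℤ))) = μ - β := by
          rw [hμ]
          ext <;> simp <;> omega
        rw [e]
        exact hw1
      · intro i
        rw [hw2 i, hfβ, zpow_zero, one_smul]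
  have hμ0 : μ ≠ 0 := by
    rw [hμ]
    intro h
    have := congrArg Prod.fst h
    simp at this
    omega
  have hTμ : T q hq μ z = 1 ⊗ₜ z := by
    have h1 := T_counit q hq μ z
    have h2 := hT μ
    rw [sub_self] at h2
    rw [h2, hz] at h1
    exact h1
  have hπ0 : π q 0 z = 0 := by
    rw [← hz, π_π, if_neg hμ0.symm]
  have hΔ : Δ q hq z = z ⊗ₜ 1 + 1 ⊗ₜ z := by
    rw [← sub_eq_zero]
    apply eq_zero_of_comp
    intro β
    rw [map_sub, map_add, ← T_def, map_tmul, map_tmul, Module.End.one_apply, Module.End.one_apply,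
      πm_apply, πm_apply, π_one]
    by_cases h0 : β = 0
    · subst h0
      rw [T_zero, if_pos rfl, hπ0]
      simp
    · rw [if_neg h0]
      by_cases h1 : β = μ
      · rw [h1, hTμ, hz]
        simp
      · have h2 : π q β z = 0 := by rw [← hz, π_π, if_neg h1]
        rw [h2]
        simp only [tmul_zero, add_zero, sub_zero]
        by_cases hb1 : 0 ≤ β.1 ∧ 0 ≤ β.2
        · have e : β.1 + β.2 = (((β.1 + β.2).toNat : ℕ) : ℤ) := by
            have := hb1.1
            have := hb1.2
            omega
          exact hin _ β e h0 h1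
        · exact hout1 β hb1
  have hanti := antipode q hq z
  rw [hΔ, map_add, map_tmul, map_tmul, map_add, LinearMap.mul'_apply, LinearMap.mul'_apply,
    S_one, hπ0, Module.End.one_apply, Module.End.one_apply, mul_one, one_mul] at hanti
  have hS : S q hq z = - z := eq_neg_of_add_eq_zero_left hanti
  have hSS : S q hq (S q hq z) = z := by rw [hS, map_neg, hS, neg_neg]
  have hSS' := SS q hq μ z
  rw [hz, hSS] at hSS'
  have hex : ex μ = - (((4 * a : ℕ)) : ℤ) := by
    unfold ex
    simp [hμ]
    ring
  rw [hex] at hSS'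
  have h6 : (1 - q ^ (-(((4 * a : ℕ)) : ℤ))) • z = 0 := by
    rw [sub_smul, one_smul, sub_eq_zero]
    exact hSS'
  rcases smul_eq_zero.mp h6 with h7 | h7
  · exfalso
    have h8 : q ^ (-(((4 * a : ℕ)) : ℤ)) = q ^ (0 : ℤ) := by
      rw [zpow_zero]
      exact (sub_eq_zero.mp h7).symm
    have := zpow_inj' q hq hr h8
    push_cast at this
    omega
  · exact h7

/-- an element commuting with both generators is a scalar -/
theorem scalar_of_central (hq : q ≠ 0) (hr : ∀ n : ℕ, 0 < n → q ^ n ≠ 1) (z : U q)
    (hc : ∀ i, θ q i * z = z * θ q i) : ∃ c : K, z = algebraMap K (U q) c := by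
  have hcomp : ∀ d i, θ q i * π q d z = π q d z * θ q i := by
    intro d i
    have h1 := congrArg (π q (d + al i)) (hc i)
    rw [π_θ_mul, π_mul_θ, add_sub_cancel_right] at h1
    exact h1
  have hpp : ∀ d, π q d (π q d z) = π q d z := by
    intro d
    rw [π_π, if_pos rfl]
  have hzero : ∀ d, d ≠ 0 → π q d z = 0 := by
    intro d hd
    by_contra hne
    have hN : ∀ i, ∃ N : ℕ, fm i d = 2 * (N : ℤ) := by
      intro i
      obtain ⟨N, hN⟩ := key_lemma q hq i d (π q d z) (hpp d) hne 1 (by rw [one_smul]; exact hcomp d i)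
      refine ⟨N, ?_⟩
      have h1 : q ^ (0 : ℤ) = q ^ (fm i d - 2 * (N : ℤ)) := by rw [zpow_zero]; exact hN
      have := zpow_inj' q hq hr h1
      omega
    obtain ⟨N0, h0⟩ := hN 0
    obtain ⟨N1, h1⟩ := hN 1
    have hd12 : d.1 = d.2 := by
      unfold fm at h0 h1
      simp at h0 h1
      omega
    by_cases hpos : 0 ≤ d.1 ∧ 0 ≤ d.2
    · have hd1 : d = (((d.1.toNat : ℕ) : ℤ), ((d.1.toNat : ℕ) : ℤ)) := by
        have := hpos.1
        ext <;> simp <;> omega
      have hd2 : 0 < d.1.toNat := by
        rcases Nat.eq_zero_or_pos d.1.toNat with h | h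
        · exfalso
          apply hd
          rw [hd1, h]
          rfl
        · exact h
      apply hne
      refine central_zero q hq hr d.1.toNat hd2 _ ?_ (hcomp d)
      rw [← hd1]
      exact hpp d
    · exact hne (π_nonneg q d hpos z)
  have hz0 : z = π q 0 z := by
    apply π_ext
    intro d
    rw [π_π]
    split_ifs with h
    · rw [h]
    · exact hzero d h
  obtain ⟨c, hc⟩ := π_zero q z
  exact ⟨c, hz0.trans hc⟩


end


end Pool.Agent.H3N.QSerre
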